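import Pool.Agent.H61.SC.Stmts
import Pool.Agent.H61.SC.Ex

/-!
# Row WIN of project SC: windows
-/

namespace Pool.SC

open Finset

namespace W81

theorem eds_mono {R : Rect} {z1 z2 y1 y2 : ℤ} (h1 : y1 ≤ z1) (h2 : z2 ≤ y2) :
    eds R z1 z2 ⊆ eds R y1 y2 := by
  intro e he
  simp only [eds, box, mem_filter, mem_product, mem_univ, true_and, Finset.mem_Ico,
    Finset.mem_Icc] at he ⊢
  obtain ⟨⟨⟨p1, p2⟩, ⟨p3, p4⟩, p5, p6⟩, ⟨q1, q2⟩, ⟨q3, q4⟩, q5, q6⟩ := he
  exact ⟨⟨⟨p1, p2⟩, ⟨p3, p4⟩, h1.trans p5, p6.trans h2⟩, ⟨q1, q2⟩, ⟨q3, q4⟩, h1.trans q5,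
    q6.trans h2⟩

theorem cuts_mono {R : Rect} {z1 z2 y1 y2 : ℤ} (h1 : y1 ≤ z1) (h2 : z2 ≤ y2) (S : Set V) :
    cuts R z1 z2 S ⊆ cuts R y1 y2 S := by
  classical
  exact Finset.filter_subset_filter _ (eds_mono h1 h2)

theorem cap_pos {a b : ℝ} (ha : 0 < a) (hab : a < b) (T : Finset Ed) (e : Ed) :
    0 < cap a b T e := by
  unfold cap
  split_ifs
  · exact ha.trans hab
  · exact ha

theorem en_mono {a b : ℝ} (ha : 0 < a) (hab : a < b) {R : Rect} {z1 z2 y1 y2 : ℤ}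
    (h1 : y1 ≤ z1) (h2 : z2 ≤ y2) (T : Finset Ed) (S : Set V) :
    en a b T R z1 z2 S ≤ en a b T R y1 y2 S :=
  Finset.sum_le_sum_of_subset_of_nonneg (cuts_mono h1 h2 S)
    (fun e _ _ => (cap_pos ha hab T e).le)

end W81

open W81

theorem win_thm (hEXT : S_EXT) (hMN : S_MN) (hINV : S_INV) (hCUT : S_CUT) (hFLT : S_FLT) :
    S_WIN := by
  intro p a b hp0 hp1 ha hab
  obtain ⟨K, hK, hE⟩ := hEXT a b ha hab
  have hb : 0 < b := ha.trans hab
  have h1p : 0 < 1 - p := by linarith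
  set c0 : ℝ := (b - a) ^ 2 * (b / a) / (2 * (1 - p)) with hc0
  have hc0pos : 0 < c0 := by
    have h3 : 0 < b - a := by linarith
    positivity
  refine ⟨K, hK, 2 * Real.sqrt c0, by positivity, ?_⟩
  intro r H hr hH
  have hKr : 1 ≤ K * r := Nat.one_le_iff_ne_zero.mpr (by
    intro h0
    rcases Nat.mul_eq_zero.mp h0 with h | h <;> omega)
  have hHr : r ≤ H := by nlinarith
  have hrR : (0 : ℝ) < r := by exact_mod_cast hr
  have hHR : (0 : ℝ) < H := by
    have : 0 < H := by omega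
    exact_mod_cast this
  have hHZ : (2 : ℤ) * K * r ≤ H := by exact_mod_cast hH
  have hKrZ : (1 : ℤ) ≤ (K : ℤ) * r := by exact_mod_cast hKr
  have hHZ0 : (0 : ℤ) < H := by nlinarith
  -- windows
  let z : ℕ → ℤ := fun i => min ((i : ℤ) * ((K : ℤ) * r)) ((H : ℤ) - 2 * ((K : ℤ) * r))
  let J : Finset ℕ := Finset.range (H / (K * r) + 1)
  have hz0 : ∀ i, 0 ≤ z i := by
    intro i
    refine le_min ?_ ?_
    · positivity
    · nlinarith
  have hz1 : ∀ i, z i + ((2 * K * r : ℕ) : ℤ) ≤ H := by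
    intro i
    have h1 : z i ≤ (H : ℤ) - 2 * ((K : ℤ) * r) := min_le_right _ _
    push_cast
    linarith
  have hz2 : ∀ i, z i < z i + ((2 * K * r : ℕ) : ℤ) := by
    intro i
    push_cast
    nlinarith
  set F : Finset Ed := eds (sq r r) 0 (H : ℤ) with hF
  set Y : ℕ → Finset Ed → ℝ :=
    fun i => flow a b (sq r r) (z i) (z i + ((2 * K * r : ℕ) : ℤ)) with hY
  set KK : ℝ := (b - a) ^ 2 * (b / a * ((r : ℝ) * r)) with hKK
  set Q : ℝ := (H : ℝ) / r with hQ
  have hKKpos : 0 < KK := by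
    have h3 : 0 < b - a := by linarith
    positivity
  have hQpos : 0 < Q := by positivity
  have hlog : Real.log (J.card : ℝ) ≤ Q := by
    have h1 : J.card = H / (K * r) + 1 := Finset.card_range _
    have h2 : ((H / (K * r) : ℕ) : ℝ) ≤ (H : ℝ) / r := by
      have h3 : ((H / (K * r) : ℕ) : ℝ) ≤ (H : ℝ) / ((K * r : ℕ) : ℝ) := Nat.cast_div_le
      refine h3.trans ?_
      apply div_le_div_of_nonneg_left hHR.le hrR
      have h4 : r ≤ K * r := by nlinarith
      exact_mod_cast h4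
    have h5 : Real.log (J.card : ℝ) ≤ (J.card : ℝ) - 1 := by
      apply Real.log_le_sub_one_of_pos
      rw [h1]
      positivity
    rw [h1] at h5 ⊢
    push_cast at h5 ⊢
    linarith
  have key := hMN Ed p hp0 hp1 F ℕ J Y (flow a b (sq r r) 0 (H : ℤ))
    (ph p a b r r (2 * K * r)) KK Q hKKpos hQpos hlog ?_ ?_
  · have h1 : KK * Q / (2 * (1 - p)) = c0 * ((H : ℝ) * r) := by
      rw [hKK, hQ, hc0]
      field_simp
    rw [h1, Real.sqrt_mul hc0pos.le] at key
    have h2 : ex p F (flow a b (sq r r) 0 (H : ℤ)) = ph p a b r r H := rfl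
    rw [h2] at key
    linarith
  · intro i _
    obtain ⟨S0, hS0, hS0'⟩ := hFLT (sq r r) (z i) (z i + ((2 * K * r : ℕ) : ℤ)) (hz2 i)
    have hc := hCUT a b (sq r r) (z i) (z i + ((2 * K * r : ℕ) : ℤ)) (fun _ => True)
      ((r : ℝ) * r) ha hab (hz2 i) ⟨S0, hS0, trivial, hS0'⟩
    obtain ⟨-, -, -, -, hg, -, hs⟩ := hc
    refine ⟨fun s _ e _ => (hg e s).1, fun s _ => hs F s, ?_⟩
    have h1 := hINV p a b (sq r r) (z i) (2 * K * r) F hp0 hp1 ha hab
      (by rw [mul_assoc]; omega) (eds_mono (hz0 i) (hz1 i))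
    have h2 : ex p F (Y i) = ph p a b r r (2 * K * r) := h1
    rw [h2]
  · intro T _
    obtain ⟨S0, hS0, hS0'⟩ := hFLT (sq r r) 0 (H : ℤ) hHZ0
    have hc := hCUT a b (sq r r) 0 (H : ℤ) (fun _ => True)
      ((r : ℝ) * r) ha hab hHZ0 ⟨S0, hS0, trivial, hS0'⟩
    obtain ⟨hm, -⟩ := hc
    obtain ⟨S, hS, -, hSe, -⟩ := hm T
    obtain ⟨u, hu0, hu1, hu⟩ := hE r 0 (H : ℤ) T S hr hHZ0 hS hSe
    have hKrpos : (0 : ℤ) < (K : ℤ) * r := by linarith
    set q : ℤ := u / ((K : ℤ) * r) with hq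
    have hq0 : 0 ≤ q := Int.ediv_nonneg hu0 hKrpos.le
    have hq1 : q * ((K : ℤ) * r) ≤ u := Int.ediv_mul_le u hKrpos.ne'
    have hq2 : u < (q + 1) * ((K : ℤ) * r) := Int.lt_ediv_add_one_mul_self u hKrpos
    have hqi : ((q.toNat : ℕ) : ℤ) = q := Int.toNat_of_nonneg hq0
    refine ⟨q.toNat, ?_, ?_⟩
    · rw [Finset.mem_range]
      have h1 : q ≤ ((H / (K * r) : ℕ) : ℤ) := by
        rw [hq]
        push_cast
        exact Int.ediv_le_ediv hKrpos hu1.le
      omega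
    · have hadm : adm (sq r r) (z q.toNat) (z q.toNat + ((2 * K * r : ℕ) : ℤ)) S := by
        intro v hv
        refine ⟨fun h => ?_, fun h => ?_⟩
        · apply (hu v hv).1
          have h1 : z q.toNat ≤ ((q.toNat : ℕ) : ℤ) * ((K : ℤ) * r) := min_le_left _ _
          rw [hqi] at h1
          linarith
        · rcases min_choice (((q.toNat : ℕ) : ℤ) * ((K : ℤ) * r))
            ((H : ℤ) - 2 * ((K : ℤ) * r)) with h2 | h2
          · apply (hu v hv).2
            have h3 : z q.toNat = q * ((K : ℤ) * r) := by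
              rw [hqi] at h2
              simp only [z]
              rw [hqi]
              exact h2
            rw [h3] at h
            push_cast at h
            linarith
          · apply (hS v hv).2
            have h3 : z q.toNat = (H : ℤ) - 2 * ((K : ℤ) * r) := h2
            rw [h3] at h
            push_cast at h
            linarith
      have hz := hz2 q.toNat
      obtain ⟨S1, hS1, hS1'⟩ := hFLT (sq r r) (z q.toNat)
        (z q.toNat + ((2 * K * r : ℕ) : ℤ)) hz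
      have hc' := hCUT a b (sq r r) (z q.toNat) (z q.toNat + ((2 * K * r : ℕ) : ℤ))
        (fun _ => True) ((r : ℝ) * r) ha hab hz ⟨S1, hS1, trivial, hS1'⟩
      obtain ⟨-, hle, -⟩ := hc'
      calc Y q.toNat T ≤ en a b T (sq r r) (z q.toNat)
            (z q.toNat + ((2 * K * r : ℕ) : ℤ)) S := hle T S hadm trivial
        _ ≤ en a b T (sq r r) 0 (H : ℤ) S := en_mono ha hab (hz0 _) (hz1 _) T S
        _ = flow a b (sq r r) 0 (H : ℤ) T := hSe

end Pool.SC
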